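import Pool.Agent.Helper47.WCO.Final

/-!
Normal weighted composition operators on the Hardy space `H²`: if the weight is not identically
zero, the composition symbol is constant or linear fractional.
-/

set_option autoImplicit false

namespace Pool.Agent.Results.MP_4d0082_an.NormalImpliesLinearFractional

open Pool.Agent.Helper47.WCO

/-- The bounded operator `T` of `H²` is the weighted composition operator `T f = ψ · (f ∘ φ)`. -/
def IsWeightedComposition (T : H2 →L[ℂ] H2) (ψ φ : ℂ → ℂ) : Prop :=
  ∀ (f : H2), ∀ z ∈ disc, ev (T f) z = ψ z * ev f (φ z)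

/-- Let `ψ` be analytic on the unit disc and let `φ` be an analytic self-map of the unit disc.
* If `T_{ψ,φ}` is bounded and normal on `H²` and `ψ` is not identically zero, then `φ` is constant
  or linear fractional.
* If `φ` has no fixed point in the disc and is not linear fractional, then `T_{ψ,φ}` is a bounded
  normal operator of `H²` if and only if `ψ` is identically zero. -/
theorem result (ψ φ : ℂ → ℂ) (_hψ : DifferentiableOn ℂ ψ disc) (hφ : DifferentiableOn ℂ φ disc)
    (hmaps : Set.MapsTo φ disc disc) :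
    (∀ T : H2 →L[ℂ] H2, IsWeightedComposition T ψ φ → IsStarNormal T → (∃ z ∈ disc, ψ z ≠ 0) →
      (∃ c, ∀ z ∈ disc, φ z = c) ∨ IsLinearFractional φ) ∧
    ((∀ z ∈ disc, φ z ≠ z) → ¬ IsLinearFractional φ →
      ((∃ T : H2 →L[ℂ] H2, IsWeightedComposition T ψ φ ∧ IsStarNormal T) ↔
        ∀ z ∈ disc, ψ z = 0)) := by
  have hmain : ∀ T : H2 →L[ℂ] H2, IsWeightedComposition T ψ φ → IsStarNormal T →
      (∃ z ∈ disc, ψ z ≠ 0) → (∃ c, ∀ z ∈ disc, φ z = c) ∨ IsLinearFractional φ := by
    intro T hT hn ⟨z, hz, hz'⟩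
    by_cases hc : ∃ c, ∀ z ∈ disc, φ z = c
    · exact Or.inl hc
    · right
      have hnc : ∃ z ∈ disc, φ z ≠ φ 0 := by
        by_contra hcon
        push Not at hcon
        exact hc ⟨φ 0, hcon⟩
      exact isLinearFractional_of_data (WCOData.of_normal
        (fun f z hz => hT f z (mem_disc.2 hz)) (fun z hz => mem_disc.1 (hmaps (mem_disc.2 hz))) hφ
        hn ⟨z, mem_disc.1 hz, hz'⟩ hnc)
  refine ⟨hmain, fun hfix hnl => ⟨?_, ?_⟩⟩
  · rintro ⟨T, hT, hn⟩
    by_contra hcon
    push Not at hcon
    rcases hmain T hT hn hcon with ⟨c, hc⟩ | h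
    · have h0 : (0 : ℂ) ∈ disc := by simp
      have hcd : c ∈ disc := by rw [← hc 0 h0]; exact hmaps h0
      exact hfix c hcd (hc c hcd)
    · exact hnl h
  · intro h0
    refine ⟨0, fun f z hz => ?_, IsStarNormal.zero⟩
    rw [h0 z hz, zero_mul]
    exact ev_zero' z

end Pool.Agent.Results.MP_4d0082_an.NormalImpliesLinearFractional
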